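import Mathlib
import Pool.Agent.Lib.MP_ff54ac_co.Main

namespace Pool.Agent.Results.MP_ff54ac_co.AlternatingRate

open Pool.Agent.Lib.MP_ff54ac_co

theorem result (I J : Finset ℕ) (hI : ∀ᶠ n in Filter.atTop, 0 < dd I n)
    (hJ : ∀ᶠ n in Filter.atTop, 0 < dd J n) :
    ∃ L C : ℝ, 0 < L ∧
      Filter.Tendsto (fun n : ℕ => (-2) ^ n * ((dd I n : ℝ) / (dd J n : ℝ) - L)) Filter.atTop
        (nhds C) ∧
      ((J.sup id < I.sup id ∨ (J.sup id = I.sup id ∧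
          ∃ k, k ≤ I.sup id ∧ k ∉ I ∧ ∀ i, k ≤ i → i ≤ I.sup id → i ∈ J)) →
        0 < (-1) ^ (I.sup id + 1) * C) :=
  main I J hI hJ

end Pool.Agent.Results.MP_ff54ac_co.AlternatingRate
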